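import Pool.Agent.Y129.MZ.Ratio

/-!
# Relations between different weights and the dimensions of the spaces of multiple zeta values
-/

set_option autoImplicit false

open Polynomial Module

namespace Pool.Agent.Y129.MZ

open Pool.Agent.H447R2.MZ

instance finite_Zs (n : ℕ) : FiniteDimensional ℚ (Zs n) := by
  rw [Zs_eq]
  refine FiniteDimensional.span_of_finite ℚ (Set.Finite.subset
    (Set.finite_range (fun c : Composition n => val c.blocks)) ?_)
  rintro _ ⟨s, hs, hn, rfl⟩
  exact ⟨⟨s, fun {i} hi => hs.1 i hi, hn⟩, rfl⟩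

/-- The sum `Z_0 + ... + Z_n`. -/
noncomputable def ZL (n : ℕ) : Submodule ℚ ℝ := ⨆ j ∈ Finset.range (n + 1), Zs j

/-- The polynomials `∑ z_j X ^ j`, `j ≤ n`, with `z_j` of weight `j`. -/
def G (n : ℕ) : Submodule ℚ ℝ[X] where
  carrier := {P | ∀ j, P.coeff j ∈ Zs j ∧ (n < j → P.coeff j = 0)}
  zero_mem' j := ⟨Submodule.zero_mem _, fun _ => rfl⟩
  add_mem' := fun {P Q} hP hQ j => ⟨by rw [coeff_add]; exact Submodule.add_mem _ (hP j).1 (hQ j).1,
    fun h => by rw [coeff_add, (hP j).2 h, (hQ j).2 h, add_zero]⟩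
  smul_mem' := fun a P hP j => ⟨by rw [coeff_smul]; exact Submodule.smul_mem _ _ (hP j).1,
    fun h => by rw [coeff_smul, (hP j).2 h, smul_zero]⟩

/-- The coefficients. -/
noncomputable def GEquiv (n : ℕ) : G n ≃ₗ[ℚ] (∀ j : Fin (n + 1), Zs j) where
  toFun P j := ⟨P.1.coeff j, (P.2 j).1⟩
  map_add' P Q := by
    funext j
    exact Subtype.ext (coeff_add _ _ _)
  map_smul' a P := by
    funext j
    exact Subtype.ext (coeff_smul _ _ _)
  invFun z := ⟨∑ j : Fin (n + 1), monomial (j : ℕ) (z j : ℝ), fun i => by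
    rw [finsetSum_coeff]
    simp only [coeff_monomial]
    refine ⟨Submodule.sum_mem _ fun j _ => ?_, fun h => Finset.sum_eq_zero fun j _ => ?_⟩
    · split_ifs with hj
      · rw [← hj]; exact (z j).2
      · exact Submodule.zero_mem _
    · rw [if_neg]
      have := j.2
      omega⟩
  left_inv P := by
    refine Subtype.ext (Polynomial.ext fun i => ?_)
    change (∑ j : Fin (n + 1), monomial (j : ℕ) (P.1.coeff j)).coeff i = P.1.coeff i
    rw [finsetSum_coeff]
    simp only [coeff_monomial]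
    by_cases hi : i ≤ n
    · rw [Finset.sum_eq_single (⟨i, by omega⟩ : Fin (n + 1))]
      · simp
      · intro j _ hj
        rw [if_neg]
        intro h
        exact hj (Fin.ext h)
      · intro h
        exact absurd (Finset.mem_univ _) h
    · rw [(P.2 i).2 (by omega)]
      refine Finset.sum_eq_zero fun j _ => ?_
      rw [if_neg]
      have := j.2
      omega
  right_inv z := by
    funext i
    refine Subtype.ext ?_
    change (∑ j : Fin (n + 1), monomial (j : ℕ) (z j : ℝ)).coeff i = z i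
    rw [finsetSum_coeff]
    simp only [coeff_monomial]
    rw [Finset.sum_eq_single i]
    · simp
    · intro j _ hj
      rw [if_neg]
      intro h
      exact hj (Fin.ext h)
    · intro h
      exact absurd (Finset.mem_univ _) h

instance finite_G (n : ℕ) : FiniteDimensional ℚ (G n) :=
  Module.Finite.equiv (GEquiv n).symm

theorem finrank_G (n : ℕ) : finrank ℚ (G n) = ∑ j ∈ Finset.range (n + 1), finrank ℚ (Zs j) := by
  rw [(GEquiv n).finrank_eq, Module.finrank_pi_fintype, Finset.sum_range]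

/-- The value at `1`. -/
noncomputable def ev (n : ℕ) : G n →ₗ[ℚ] ℝ where
  toFun P := P.1.eval 1
  map_add' P Q := eval_add
  map_smul' a P := by
    change (a • P.1).eval 1 = a • P.1.eval 1
    rw [Polynomial.eval_smul]

theorem ev_apply (n : ℕ) (P : G n) : ev n P = ∑ j ∈ Finset.range (n + 1), P.1.coeff j := by
  change P.1.eval 1 = _
  rw [eval_eq_sum_range' (n := n + 1)]
  · simp
  · by_cases h0 : P.1 = 0
    · rw [h0, natDegree_zero]; omega
    · by_contra h
      push Not at h
      exact (leadingCoeff_ne_zero.2 h0) ((P.2 _).2 (by omega))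

theorem monomial_mem {n j : ℕ} (hj : j ≤ n) {z : ℝ} (hz : z ∈ Zs j) : monomial j z ∈ G n := by
  intro i
  rw [coeff_monomial]
  split_ifs with h
  · exact ⟨h ▸ hz, fun h2 => by omega⟩
  · exact ⟨Submodule.zero_mem _, fun _ => rfl⟩

theorem range_ev (n : ℕ) : LinearMap.range (ev n) = ZL n := by
  apply le_antisymm
  · rintro _ ⟨P, rfl⟩
    rw [ev_apply]
    exact Submodule.sum_mem _ fun j hj =>
      (le_iSup₂_of_le (f := fun j (_ : j ∈ Finset.range (n + 1)) => Zs j) j hj le_rfl) (P.2 j).1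
  · refine iSup₂_le fun j hj z hz => ?_
    have hjn : j ≤ n := by simpa [Nat.lt_succ_iff] using hj
    refine ⟨⟨monomial j z, monomial_mem hjn hz⟩, ?_⟩
    change (monomial j z).eval 1 = z
    rw [eval_monomial]
    simp

instance finite_ZL (n : ℕ) : FiniteDimensional ℚ (ZL n) := by
  rw [← range_ev]
  infer_instance

theorem rank_nullity (n : ℕ) : finrank ℚ (ZL n) + finrank ℚ (LinearMap.ker (ev n)) =
    ∑ j ∈ Finset.range (n + 1), finrank ℚ (Zs j) := by
  rw [← range_ev, (ev n).finrank_range_add_finrank_ker, finrank_G]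

/-- Directness in terms of the kernel. -/
theorem direct_iff_ker (p : ℕ) : Direct p ↔ LinearMap.ker (ev p) = ⊥ := by
  rw [Submodule.eq_bot_iff]
  constructor
  · intro h P hP
    have h1 : ev p P = 0 := hP
    rw [ev_apply] at h1
    have h2 := h (fun j => P.1.coeff j) (fun j _ => (P.2 j).1) h1
    refine Subtype.ext (Polynomial.ext fun i => ?_)
    by_cases hi : i ≤ p
    · exact h2 i hi
    · exact (P.2 i).2 (by omega)
  · intro h z hz hs
    have h1 := h ((GEquiv p).symm fun j => ⟨z j, hz j (Nat.lt_succ_iff.1 j.2)⟩) (by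
      change ev p _ = 0
      rw [ev_apply, ← hs]
      refine Finset.sum_congr rfl fun j hj => ?_
      have hj' : j < p + 1 := Finset.mem_range.1 hj
      have h2 := congrFun ((GEquiv p).apply_symm_apply
        (fun j : Fin (p + 1) => (⟨z j, hz j (Nat.lt_succ_iff.1 j.2)⟩ : Zs j))) ⟨j, hj'⟩
      exact congrArg Subtype.val h2)
    intro j hj
    have h2 := congrFun ((GEquiv p).apply_symm_apply
      (fun j : Fin (p + 1) => (⟨z j, hz j (Nat.lt_succ_iff.1 j.2)⟩ : Zs j)))
      ⟨j, Nat.lt_succ_iff.2 hj⟩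
    rw [h1] at h2
    exact (congrArg Subtype.val h2).symm

theorem finrank_ZL_of_direct {n : ℕ} (h : Direct n) :
    finrank ℚ (ZL n) = ∑ j ∈ Finset.range (n + 1), finrank ℚ (Zs j) := by
  have h1 := rank_nullity n
  rwa [(direct_iff_ker n).1 h, finrank_bot, add_zero] at h1

theorem mul_mem_G {m n : ℕ} {P Q : ℝ[X]} (hP : P ∈ G m) (hQ : Q ∈ G n) : P * Q ∈ G (m + n) := by
  intro j
  rw [coeff_mul]
  refine ⟨Submodule.sum_mem _ fun x hx => ?_, fun h => Finset.sum_eq_zero fun x hx => ?_⟩
  · rw [← Finset.HasAntidiagonal.mem_antidiagonal.1 hx]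
    exact mul_mem _ _ _ _ (hP _).1 (hQ _).1
  · have h1 := Finset.HasAntidiagonal.mem_antidiagonal.1 hx
    by_cases h2 : m < x.1
    · rw [(hP _).2 h2, zero_mul]
    · rw [(hQ _).2 (by omega), mul_zero]

theorem Zs_zero_one : finrank ℚ (Zs 0) ≠ 0 := by
  intro h
  rw [Submodule.finrank_eq_zero] at h
  have h1 : (1 : ℝ) ∈ Zs 0 := one_mem
  rw [h, Submodule.mem_bot] at h1
  exact one_ne_zero h1

/-- A nontrivial relation of weights at most `p` costs a fixed proportion of the dimensions. -/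
theorem gap {p : ℕ} (h : ¬ Direct p) (n : ℕ) :
    finrank ℚ (ZL n) ≤ ∑ j ∈ (Finset.range (n + 1)).filter (fun j => n < j + p),
      finrank ℚ (Zs j) := by
  rw [direct_iff_ker, Submodule.eq_bot_iff] at h
  push Not at h
  obtain ⟨F, hF, hF0⟩ := h
  have hF0' : F.1 ≠ 0 := fun h => hF0 (Subtype.ext h)
  have hF1 : F.1.eval 1 = 0 := hF
  have h1 := rank_nullity n
  rw [← Finset.sum_filter_add_sum_filter_not (Finset.range (n + 1)) (fun j => n < j + p)] at h1
  suffices h2 : ∑ j ∈ (Finset.range (n + 1)).filter (fun j => ¬ n < j + p), finrank ℚ (Zs j) ≤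
      finrank ℚ (LinearMap.ker (ev n)) by omega
  by_cases hpn : p ≤ n
  · have e : (Finset.range (n + 1)).filter (fun j => ¬ n < j + p) = Finset.range (n - p + 1) := by
      ext j
      simp only [Finset.mem_filter, Finset.mem_range]
      omega
    rw [e, ← finrank_G]
    let f : G (n - p) →ₗ[ℚ] LinearMap.ker (ev n) :=
      { toFun := fun P => ⟨⟨F.1 * P.1, by
          have h3 := mul_mem_G F.2 P.2
          rwa [show p + (n - p) = n by omega] at h3⟩, by
          change (F.1 * P.1).eval 1 = 0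
          rw [eval_mul, hF1, zero_mul]⟩
        map_add' := fun P Q => Subtype.ext (Subtype.ext (mul_add _ _ _))
        map_smul' := fun a P => Subtype.ext (Subtype.ext (mul_smul_comm _ _ _)) }
    refine LinearMap.finrank_le_finrank_of_injective (f := f) ?_
    rw [injective_iff_map_eq_zero]
    intro P hP
    have h3 : F.1 * P.1 = 0 := congrArg (fun Q : LinearMap.ker (ev n) => Q.1.1) hP
    exact Subtype.ext ((mul_eq_zero.1 h3).resolve_left hF0')
  · have e : (Finset.range (n + 1)).filter (fun j => ¬ n < j + p) = ∅ := by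
      ext j
      simp only [Finset.mem_filter, Finset.mem_range, Finset.notMem_empty, iff_false]
      omega
    rw [e, Finset.sum_empty]
    exact Nat.zero_le _

/-- The full statement. -/
theorem main : ((∀ p, Direct p) ↔ Transcendental ratioField Real.pi) ∧
    ((∀ p, Direct p) ↔ ∃ w, ∃ z ∈ Zs w, Transcendental ratioField z) ∧
    ((∀ p, Direct p) ↔ ∀ w ≥ 1, ∀ z ∈ Zs w, z ≠ 0 → Transcendental ratioField z) ∧
    ((∀ p, Direct p) ↔ ∀ p, ∃ n,
      ∑ j ∈ (Finset.range (n + 1)).filter (fun j => n < j + p), finrank ℚ (Zs j) <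
        finrank ℚ (ZL n)) ∧
    ∀ p, ¬ Direct p →
      (∃ P : ratioField[X], P ≠ 0 ∧ P.natDegree ≤ p ∧ aeval (Real.pi ^ 2) P = 0) ∧
      (∀ w, ∀ z ∈ Zs w, IsAlgebraic ratioField z) ∧
      ∀ n, finrank ℚ (ZL n) ≤ ∑ j ∈ (Finset.range (n + 1)).filter (fun j => n < j + p),
        finrank ℚ (Zs j) := by
  have h1 : Transcendental ratioField Real.pi → ∀ p, Direct p := fun h p => by
    by_contra hp
    exact h (pi_algebraic_of_not_direct hp)
  have h2 : (∀ p, Direct p) → ∀ w ≥ 1, ∀ z ∈ Zs w, z ≠ 0 → Transcendental ratioField z :=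
    fun h w hw z hz hz0 => transcendental_of_direct h hw hz hz0
  have h3 : (∀ w ≥ 1, ∀ z ∈ Zs w, z ≠ 0 → Transcendental ratioField z) →
      ∃ w, ∃ z ∈ Zs w, Transcendental ratioField z := fun h =>
    ⟨2, _, pi_sq_mem, h 2 (by norm_num) _ pi_sq_mem (pow_ne_zero _ Real.pi_ne_zero)⟩
  have h4 : (∃ w, ∃ z ∈ Zs w, Transcendental ratioField z) →
      Transcendental ratioField Real.pi := by
    rintro ⟨w, z, hz, ht⟩ hpi
    exact ht (algebraic_of_pi hpi hz)
  refine ⟨⟨fun h => h4 (h3 (h2 h)), h1⟩, ⟨fun h => h3 (h2 h), fun h => h1 (h4 h)⟩,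
    ⟨h2, fun h => h1 (h4 (h3 h))⟩, ⟨fun h p => ⟨p, ?_⟩, fun h p => ?_⟩, fun p hp =>
    ⟨algebraic_of_not_direct hp, fun w z hz => algebraic_of_pi (pi_algebraic_of_not_direct hp) hz,
      gap hp⟩⟩
  · rw [finrank_ZL_of_direct (h p),
      ← Finset.sum_filter_add_sum_filter_not (Finset.range (p + 1)) (fun j => p < j + p)]
    have h5 : 0 < ∑ j ∈ (Finset.range (p + 1)).filter (fun j => ¬ p < j + p),
        finrank ℚ (Zs j) := by
      refine Finset.sum_pos' (fun _ _ => Nat.zero_le _) ⟨0, ?_, Nat.pos_of_ne_zero Zs_zero_one⟩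
      simp
    omega
  · by_contra hp
    obtain ⟨n, hn⟩ := h p
    exact absurd (gap hp n) (by omega)

end Pool.Agent.Y129.MZ
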