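import Pool.Agent.H447R2.MZ.Tup

/-!
# The field of the ratios of multiple zeta values of equal weight
-/

set_option autoImplicit false

open Polynomial

namespace Pool.Agent.Y129.MZ

open Pool.Agent.H447R2.MZ

/-- The field generated by the ratios `x / y` of elements `x`, `y` of the same weight. -/
noncomputable def ratioField : Subfield ℝ :=
  Subfield.closure {r | ∃ w, ∃ x ∈ Zs w, ∃ y ∈ Zs w, r = x / y}

theorem div_mem_ratio {w : ℕ} {x y : ℝ} (hx : x ∈ Zs w) (hy : y ∈ Zs w) : x / y ∈ ratioField :=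
  Subfield.subset_closure ⟨w, x, hx, y, hy, rfl⟩

/-- The quotients `x / y`, `y ≠ 0`, form a field. -/
noncomputable def quotients : Subfield ℝ where
  carrier := {r | ∃ w, ∃ x ∈ Zs w, ∃ y ∈ Zs w, y ≠ 0 ∧ r = x / y}
  zero_mem' := ⟨0, 0, Submodule.zero_mem _, 1, one_mem, one_ne_zero, by simp⟩
  one_mem' := ⟨0, 1, one_mem, 1, one_mem, one_ne_zero, by simp⟩
  mul_mem' := by
    rintro _ _ ⟨w, x, hx, y, hy, hy0, rfl⟩ ⟨w', x', hx', y', hy', hy0', rfl⟩
    exact ⟨w + w', x * x', mul_mem _ _ _ _ hx hx', y * y', mul_mem _ _ _ _ hy hy',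
      mul_ne_zero hy0 hy0', by rw [div_mul_div_comm]⟩
  add_mem' := by
    rintro _ _ ⟨w, x, hx, y, hy, hy0, rfl⟩ ⟨w', x', hx', y', hy', hy0', rfl⟩
    exact ⟨w + w', x * y' + y * x', Submodule.add_mem _ (mul_mem _ _ _ _ hx hy')
      (mul_mem _ _ _ _ hy hx'), y * y', mul_mem _ _ _ _ hy hy',
      mul_ne_zero hy0 hy0', div_add_div _ _ hy0 hy0'⟩
  neg_mem' := by
    rintro _ ⟨w, x, hx, y, hy, hy0, rfl⟩
    exact ⟨w, -x, Submodule.neg_mem _ hx, y, hy, hy0, by rw [neg_div]⟩
  inv_mem' := by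
    rintro _ ⟨w, x, hx, y, hy, hy0, rfl⟩
    by_cases hx0 : x = 0
    · exact ⟨w, x, hx, y, hy, hy0, by rw [hx0]; simp⟩
    · exact ⟨w, y, hy, x, hx, hx0, by rw [inv_div]⟩

theorem ratio_le : ratioField ≤ quotients := by
  rw [ratioField, Subfield.closure_le]
  rintro _ ⟨w, x, hx, y, hy, rfl⟩
  by_cases hy0 : y = 0
  · rw [hy0, div_zero]
    exact quotients.zero_mem
  · exact ⟨w, x, hx, y, hy, hy0, rfl⟩

/-- Common denominators. -/
theorem exists_denom (P : ratioField[X]) : ∃ W : ℕ, ∃ y ∈ Zs W, y ≠ 0 ∧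
    ∀ i, y * (P.coeff i : ℝ) ∈ Zs W := by
  induction P using Polynomial.induction_on' with
  | add P Q hP hQ =>
    obtain ⟨W, y, hy, hy0, h⟩ := hP
    obtain ⟨W', y', hy', hy0', h'⟩ := hQ
    refine ⟨W + W', y * y', mul_mem _ _ _ _ hy hy', mul_ne_zero hy0 hy0', fun i => ?_⟩
    have e : y * y' * ((P + Q).coeff i : ℝ) =
        y * (P.coeff i : ℝ) * y' + y * (y' * (Q.coeff i : ℝ)) := by
      rw [coeff_add]
      push_cast
      ring
    rw [e]
    exact Submodule.add_mem _ (mul_mem _ _ _ _ (h i) hy') (mul_mem _ _ _ _ hy (h' i))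
  | monomial n a =>
    obtain ⟨w, x, hx, y, hy, hy0, hxy⟩ := ratio_le a.2
    refine ⟨w, y, hy, hy0, fun i => ?_⟩
    rw [coeff_monomial]
    split_ifs
    · rw [hxy, mul_div_cancel₀ _ hy0]
      exact hx
    · simp

theorem pi_pow_mem (i : ℕ) : Real.pi ^ (2 * i) ∈ Zs (2 * i) := by
  rw [pow_mul]
  exact pow_mem 2 _ pi_sq_mem i

/-- The sum of the spaces of weights at most `p` is direct. -/
def Direct (p : ℕ) : Prop :=
  ∀ z : ℕ → ℝ, (∀ j ≤ p, z j ∈ Zs j) → (∑ j ∈ Finset.range (p + 1), z j) = 0 → ∀ j ≤ p, z j = 0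

theorem sum_even_odd (z : ℕ → ℝ) (N : ℕ) :
    ∑ j ∈ Finset.range (2 * N), z j = ∑ i ∈ Finset.range N, (z (2 * i) + z (2 * i + 1)) := by
  induction N with
  | zero => simp
  | succ N ih =>
    rw [Nat.mul_succ, Finset.sum_range_succ, Finset.sum_range_succ, Finset.sum_range_succ, ih]
    ring

theorem Zs_one {x : ℝ} (hx : x ∈ Zs 1) : x = 0 := by
  rw [Zs_eq] at hx
  induction hx using Submodule.span_induction with
  | mem x hx =>
    obtain ⟨s, hs, h0, rfl⟩ := hx
    exfalso
    rcases s with _ | ⟨a, s⟩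
    · simp at h0
    · have := hs.2 a s rfl
      simp only [List.sum_cons] at h0
      omega
  | zero => rfl
  | add x y _ _ hx hy => rw [hx, hy, add_zero]
  | smul a x _ hx => rw [hx, smul_zero]

theorem parity {k : Type} [Field k] {A B : k[X]} {c : k} (hc : c ≠ 0)
    (h : A ^ 2 = C c * X ^ 3 * B ^ 2) : A = 0 ∧ B = 0 := by
  by_cases hB : B = 0
  · refine ⟨?_, hB⟩
    rw [hB] at h
    simpa using h
  · exfalso
    have hA : A ≠ 0 := by
      rintro rfl
      have h1 : C c * X ^ 3 * B ^ 2 ≠ 0 :=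
        mul_ne_zero (mul_ne_zero (C_ne_zero.2 hc) (pow_ne_zero _ X_ne_zero)) (pow_ne_zero _ hB)
      exact h1 (by rw [← h]; simp)
    have h1 := congrArg natDegree h
    rw [natDegree_pow, natDegree_mul (mul_ne_zero (C_ne_zero.2 hc) (pow_ne_zero _ X_ne_zero))
      (pow_ne_zero _ hB), natDegree_C_mul_X_pow _ _ hc, natDegree_pow] at h1
    omega

/-- A nontrivial relation between elements of different weights at most `p` makes `π ^ 2` algebraic of
degree at most `p` over the field of ratios. -/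
theorem algebraic_of_not_direct {p : ℕ} (h : ¬ Direct p) : ∃ P : ratioField[X], P ≠ 0 ∧
    P.natDegree ≤ p ∧ aeval (Real.pi ^ 2) P = 0 := by
  unfold Direct at h
  push Not at h
  obtain ⟨z', hz', hs', j₀, hj₀, hj0⟩ := h
  -- extend by zero
  let z : ℕ → ℝ := fun j => if j ≤ p then z' j else 0
  have hz : ∀ j, z j ∈ Zs j := fun j => by
    by_cases hj : j ≤ p
    · simp only [z, if_pos hj]; exact hz' j hj
    · simp only [z, if_neg hj]; exact Submodule.zero_mem _
  have hzp : ∀ j, p < j → z j = 0 := fun j hj => if_neg (by omega)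
  have hz0 : z j₀ ≠ 0 := by simp only [z, if_pos hj₀]; exact hj0
  have hz1 : z 1 = 0 := Zs_one (hz 1)
  have hs : ∑ j ∈ Finset.range (2 * (p + 1)), z j = 0 := by
    rw [← Finset.sum_subset (s₁ := Finset.range (p + 1))
      (Finset.range_subset_range.2 (by omega)) (fun j _ hj => hzp j (by simpa using hj)), ← hs']
    refine Finset.sum_congr rfl fun j hj => ?_
    have : j ≤ p := by simpa [Nat.lt_succ_iff] using hj
    simp only [z, if_pos this]
  have hpi : Real.pi ≠ 0 := Real.pi_ne_zero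
  have hz3 : z3 ≠ 0 := z3_pos.ne'
  -- the coefficients
  let a : ℕ → ratioField := fun i => ⟨z (2 * i) / Real.pi ^ (2 * i),
    div_mem_ratio (hz _) (pi_pow_mem i)⟩
  let b : ℕ → ratioField := fun i => ⟨z (2 * i + 3) / (Real.pi ^ (2 * i) * z3),
    div_mem_ratio (hz _) (mul_mem _ _ _ _ (pi_pow_mem i) z3_mem)⟩
  let c : ratioField := ⟨z3 ^ 2 / Real.pi ^ (2 * 3),
    div_mem_ratio (pow_mem 3 _ z3_mem 2) (pi_pow_mem 3)⟩
  have hc : c ≠ 0 := fun h => by
    have h1 : z3 ^ 2 / Real.pi ^ (2 * 3) = 0 := congrArg Subtype.val h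
    exact (div_ne_zero (pow_ne_zero _ hz3) (pow_ne_zero _ hpi)) h1
  let A : ratioField[X] := ∑ i ∈ Finset.range (p + 1), monomial i (a i)
  let B : ratioField[X] := ∑ i ∈ Finset.range (p + 1), monomial i (b i)
  have hA : ∀ i, A.coeff i = if i ≤ p then a i else 0 := fun i => by
    simp only [A, finsetSum_coeff, coeff_monomial, Finset.sum_ite_eq', Finset.mem_range,
      Nat.lt_succ_iff]
  have hB : ∀ i, B.coeff i = if i ≤ p then b i else 0 := fun i => by
    simp only [B, finsetSum_coeff, coeff_monomial, Finset.sum_ite_eq', Finset.mem_range,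
      Nat.lt_succ_iff]
  have eA : aeval (Real.pi ^ 2) A = ∑ i ∈ Finset.range (p + 1), z (2 * i) := by
    simp only [A, map_sum, aeval_monomial]
    refine Finset.sum_congr rfl fun i _ => ?_
    change z (2 * i) / Real.pi ^ (2 * i) * (Real.pi ^ 2) ^ i = _
    rw [← pow_mul, div_mul_cancel₀ _ (pow_ne_zero _ hpi)]
  have eB : z3 * aeval (Real.pi ^ 2) B = ∑ i ∈ Finset.range (p + 1), z (2 * i + 3) := by
    simp only [B, map_sum, aeval_monomial, Finset.mul_sum]
    refine Finset.sum_congr rfl fun i _ => ?_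
    change z3 * (z (2 * i + 3) / (Real.pi ^ (2 * i) * z3) * (Real.pi ^ 2) ^ i) = _
    rw [← pow_mul]
    field_simp
  have hodd : ∑ i ∈ Finset.range (p + 1), z (2 * i + 3) =
      ∑ i ∈ Finset.range (p + 1), z (2 * i + 1) := by
    have h1 := Finset.sum_range_succ' (fun i => z (2 * i + 1)) (p + 1)
    have h2 := Finset.sum_range_succ (fun i => z (2 * i + 1)) (p + 1)
    have h3 : z (2 * (p + 1) + 1) = 0 := hzp _ (by omega)
    have h4 : z (2 * 0 + 1) = 0 := hz1
    rw [h2, h3, h4, add_zero, add_zero] at h1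
    exact h1.symm
  have hAB : aeval (Real.pi ^ 2) A + z3 * aeval (Real.pi ^ 2) B = 0 := by
    rw [eA, eB, hodd, ← Finset.sum_add_distrib, ← sum_even_odd, hs]
  let P : ratioField[X] := A ^ 2 - C c * X ^ 3 * B ^ 2
  have dA : A.natDegree ≤ p / 2 := by
    rw [natDegree_le_iff_coeff_eq_zero]
    intro i hi
    rw [hA]
    split_ifs
    · exact Subtype.ext (by
        change z (2 * i) / Real.pi ^ (2 * i) = 0
        rw [hzp (2 * i) (by omega), zero_div])
    · rfl
  have hP0 : P ≠ 0 := by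
    intro h0
    obtain ⟨h1, h2⟩ := parity hc (sub_eq_zero.1 h0)
    apply hz0
    rcases Nat.even_or_odd' j₀ with ⟨i, rfl | rfl⟩
    · have h3 := hA i
      rw [h1, coeff_zero, if_pos (by omega)] at h3
      have h4 : z (2 * i) / Real.pi ^ (2 * i) = 0 := (congrArg Subtype.val h3).symm
      exact (div_eq_zero_iff.1 h4).resolve_right (pow_ne_zero _ hpi)
    · rcases Nat.eq_zero_or_pos i with rfl | hi
      · exact hz1
      · obtain ⟨i', rfl⟩ := Nat.exists_eq_add_of_le' hi
        have h3 := hB i'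
        rw [h2, coeff_zero, if_pos (by omega)] at h3
        have h4 : z (2 * i' + 3) / (Real.pi ^ (2 * i') * z3) = 0 := (congrArg Subtype.val h3).symm
        have h5 := (div_eq_zero_iff.1 h4).resolve_right
          (mul_ne_zero (pow_ne_zero _ hpi) hz3)
        have h6 : 2 * (i' + 1) + 1 = 2 * i' + 3 := by ring
        rw [h6]
        exact h5
  refine ⟨P, hP0, ?_, ?_⟩
  · refine (natDegree_sub_le _ _).trans (max_le ?_ ?_)
    · refine natDegree_pow_le.trans ?_
      omega
    · by_cases hBz : B = 0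
      · rw [hBz]
        simp
      · have dB : B.natDegree ≤ (p - 3) / 2 ∧ 3 ≤ p := by
          have h1 : ∀ i, p < 2 * i + 3 → B.coeff i = 0 := fun i hi => by
            rw [hB]
            split_ifs
            · exact Subtype.ext (by
                change z (2 * i + 3) / (Real.pi ^ (2 * i) * z3) = 0
                rw [hzp (2 * i + 3) hi, zero_div])
            · rfl
          have h3 : 3 ≤ p := by
            by_contra h
            exact hBz (Polynomial.ext fun i => by rw [h1 i (by omega), coeff_zero])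
          refine ⟨?_, h3⟩
          rw [natDegree_le_iff_coeff_eq_zero]
          intro i hi
          exact h1 i (by omega)
        have h2 : (C c * X ^ 3 * B ^ 2).natDegree ≤ 3 + 2 * B.natDegree :=
          natDegree_mul_le.trans (add_le_add (natDegree_C_mul_X_pow_le _ _) natDegree_pow_le)
        omega
  · have h1 : aeval (Real.pi ^ 2) P = (aeval (Real.pi ^ 2) A) ^ 2 -
        z3 ^ 2 * (aeval (Real.pi ^ 2) B) ^ 2 := by
      simp only [P, map_sub, map_mul, map_pow, aeval_C, aeval_X]
      have h2 : algebraMap ratioField ℝ c * (Real.pi ^ 2) ^ 3 = z3 ^ 2 := by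
        change z3 ^ 2 / Real.pi ^ (2 * 3) * (Real.pi ^ 2) ^ 3 = z3 ^ 2
        rw [← pow_mul, div_mul_cancel₀ _ (pow_ne_zero _ hpi)]
      rw [h2]
    rw [h1, eq_neg_of_add_eq_zero_left hAB]
    ring

/-- If the sum is direct, all nonzero elements of positive weight are transcendental over the field of
ratios. -/
theorem transcendental_of_direct (h : ∀ p, Direct p) {w : ℕ} (hw : 1 ≤ w) {z : ℝ}
    (hz : z ∈ Zs w) (hz0 : z ≠ 0) : Transcendental ratioField z := by
  rw [transcendental_iff]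
  intro P hP
  obtain ⟨W, y, hy, hy0, hyP⟩ := exists_denom P
  set d := P.natDegree with hd
  let x : ℕ → ℝ := fun i => y * (P.coeff i : ℝ)
  have hxz : ∀ i, x i * z ^ i ∈ Zs (W + w * i) := fun i => mul_mem _ _ _ _ (hyP i) (pow_mem w z hz i)
  let ζ : ℕ → ℝ := fun j => ∑ i ∈ Finset.range (d + 1), if W + w * i = j then x i * z ^ i else 0
  have hζ : ∀ j, ζ j ∈ Zs j := fun j => Submodule.sum_mem _ fun i _ => by
    split_ifs with hij
    · rw [← hij]; exact hxz i
    · exact Submodule.zero_mem _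
  have hsum : ∑ j ∈ Finset.range (W + w * d + 1), ζ j = 0 := by
    simp only [ζ]
    rw [Finset.sum_comm]
    have h1 : ∀ i ∈ Finset.range (d + 1),
        ∑ j ∈ Finset.range (W + w * d + 1), (if W + w * i = j then x i * z ^ i else 0) =
          x i * z ^ i := fun i hi => by
      rw [Finset.sum_ite_eq, if_pos]
      have h2 : i ≤ d := by simpa [Nat.lt_succ_iff] using hi
      have h3 : w * i ≤ w * d := Nat.mul_le_mul_left _ h2
      simp only [Finset.mem_range]
      omega
    rw [Finset.sum_congr rfl h1]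
    have h2 : aeval z P = ∑ i ∈ Finset.range (d + 1), (P.coeff i : ℝ) * z ^ i := by
      rw [aeval_eq_sum_range]
      rfl
    have h3 : ∑ i ∈ Finset.range (d + 1), x i * z ^ i = y * aeval z P := by
      rw [h2, Finset.mul_sum]
      exact Finset.sum_congr rfl fun i _ => by simp only [x]; ring
    rw [h3, hP, mul_zero]
  have h0 := h (W + w * d) ζ (fun j _ => hζ j) hsum
  refine Polynomial.ext fun i => ?_
  rw [coeff_zero]
  by_cases hi : i ≤ d
  · have h1 := h0 (W + w * i) (by have := Nat.mul_le_mul_left w hi; omega)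
    have h2 : ζ (W + w * i) = x i * z ^ i := by
      simp only [ζ]
      rw [Finset.sum_eq_single i]
      · rw [if_pos rfl]
      · intro b _ hb
        rw [if_neg]
        intro h3
        have h4 : w * b = w * i := by omega
        exact hb (Nat.eq_of_mul_eq_mul_left (by omega) h4)
      · intro h3
        exact absurd (Finset.mem_range.2 (by omega)) h3
    rw [h2] at h1
    have h3 : x i = 0 := (mul_eq_zero.1 h1).resolve_right (pow_ne_zero _ hz0)
    have h4 : (P.coeff i : ℝ) = 0 := (mul_eq_zero.1 h3).resolve_left hy0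
    exact Subtype.ext h4
  · exact coeff_eq_zero_of_natDegree_lt (by omega)

/-- If `π` is algebraic over the field of ratios, then all multiple zeta values are. -/
theorem algebraic_of_pi (h : IsAlgebraic ratioField Real.pi) {w : ℕ} {z : ℝ} (hz : z ∈ Zs w) :
    IsAlgebraic ratioField z := by
  have h1 : z ^ 2 / Real.pi ^ (2 * w) ∈ ratioField := by
    have h2 := pow_mem w z hz 2
    rw [mul_comm] at h2
    exact div_mem_ratio h2 (pi_pow_mem w)
  have h2 : z ^ 2 = algebraMap ratioField ℝ ⟨_, h1⟩ * Real.pi ^ (2 * w) := by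
    change z ^ 2 = z ^ 2 / Real.pi ^ (2 * w) * Real.pi ^ (2 * w)
    rw [div_mul_cancel₀ _ (pow_ne_zero _ Real.pi_ne_zero)]
  have h3 : IsAlgebraic ratioField (z ^ 2) := by
    rw [h2]
    exact (isAlgebraic_algebraMap _).mul (h.pow _)
  exact IsAlgebraic.of_pow (by norm_num) h3

theorem pi_algebraic_of_not_direct {p : ℕ} (h : ¬ Direct p) :
    IsAlgebraic ratioField Real.pi := by
  obtain ⟨P, hP, _, h1⟩ := algebraic_of_not_direct h
  exact IsAlgebraic.of_pow (by norm_num : 0 < 2) ⟨P, hP, h1⟩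

end Pool.Agent.Y129.MZ
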